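import Pool.Agent.Run7.h742.DG.Fin2

/-!
# The truncated inequality at almost all closed points of degree `d` of the line, for divisors with
closed points of degree up to `2 d + 1`

`X` is the projective line over `K = ℚ`. A closed point of degree `d` (other than `∞`) is given by its
equation, an irreducible polynomial `P` in `ℤ[X]` of degree `d`, unique up to sign; its residue field is
`L = ℚ(x)`, `x` a zero of `P`, its height is `h(x) = log M(P) / d` (`M` is the Mahler measure), and its
*denominator* is the leading coefficient of `P`; the integral points, with respect to `∞`, are those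
with `P` monic. There are about `B ^ (d (d + 1))` closed points of degree `d` and height at most
`log B`, and about `B ^ (d ^ 2)` integral ones.

`D` is any reduced divisor on the line: the sum of different closed points `D_j`, of degrees `k_j`, with
the equations `f_j`, and of `∞` if `e = 1`. So `D` has the degree `q = ∑ k_j + e`. The truncated
counting function `N_S^(1)(D, x)` is the sum of `log N(v) / d` over the primes `v` of `L`, not above
primes of `S`, at which the local height of `x` with respect to `D` is positive. The conjecture is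
`(q - 2 - ε) h(x) ≤ N_S^(1)(D, x) + d(x) + O(1)` for the points of degree at most `r`.

1. We prove that `θ log B ≤ N_S^(1)(D, x)` for all closed points of degree `d` and height at most
   `log B`, with at most `C B ^ (d (d + 1) - c)` exceptions, and for all `S` of weight
   `∑_{p ∈ S} log p ≤ η d log B`, as soon as `θ + η < ∑ w_j`. Here `w_j = k_j` if `k_j ≤ 2 d + 1`, and
   `w_j = 2` otherwise.
2. The same holds for the closed points with the denominator `a`, uniformly in `a`, with at most
   `C B ^ (d ^ 2 - c)` exceptions, for `d ≥ 2` and `w_j = k_j` if `k_j ≤ 2 d - 1`, `w_j = 2` otherwise.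
   For `a = 1` these are the algebraic integers of degree `d`.
3. In particular, if all points of `D` have degree at most `2 d + 1`, then the inequality
   `(q - 2) h(x) ≤ N_S^(1)(D, x)`, with no `ε`, no constant and no discriminant, holds at all closed
   points of degree `d` and height at most `log B` for all `S` of weight at most `(1 - δ) d log B`,
   with at most `C B ^ (d (d + 1) - c)` exceptions.

So each divisor is covered for all large `d`.

Proof. The product over `j` of the resultants of `f_j` and `P` is to have a large radical. The squares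
of primes `p ≤ B ^ (1 / 2)` are dealt with by varying the constant coefficient of `P`. If
`p ^ 2` divides the resultant of `f` and `P` then the value of `P` at a zero `β` of `f` lies in an ideal
of norm divisible by `p ^ 2`, one of `O(1)` ideals; two polynomials `P` for which it lies in the same
ideal have a distance at least `c p ^ (2 / k)` if they differ only in the coefficients of index less
than `k = deg f`, as the norm of the difference of the values is divisible by `p ^ 2`. For `n` free
coefficients of size `H` this leaves `O(H ^ n p ^ (- 2 n / k) + 1)` polynomials, and the sum over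
`p ≤ C H ^ (k / 2)` is small if `k < 2 n`. For `w_j = 2` the determinant method is used.
-/

set_option autoImplicit false

namespace Pool.Agent.Results.MP_44a246_nt.ClosedPointsOfDegreeD

open Polynomial NumberField IsDedekindDomain

/-- different closed points of the line, other than `∞`, given by their equations -/
structure Divisor {r : ℕ} (f : Fin r → ℤ[X]) : Prop where
  /-- each equation is irreducible (and so primitive) -/
  irreducible : ∀ j, Irreducible (f j)
  /-- the equations are not constant -/
  degree : ∀ j, 1 ≤ (f j).natDegree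
  /-- the closed points are different: the product has no multiple factor over `ℚ` -/
  reduced : Squarefree ((∏ j, f j).map (Int.castRingHom ℚ))

/-- The absolute logarithmic height `log M(P) / deg P` of the zeros of an irreducible integral
polynomial `P`. -/
noncomputable def height (P : ℤ[X]) : ℝ :=
  Real.log (P.map (Int.castRingHom ℂ)).mahlerMeasure / (P.natDegree : ℝ)

/-- The local height of `x` at `v` with respect to the closed point with the equation `f`, which is
`- log (|f(x)|_v / max(1, |x|_v) ^ (deg f))`, is positive. -/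
def Near {L : Type} [Field L] [NumberField L] (v : HeightOneSpectrum (𝓞 L)) (x : L)
    (f : ℤ[X]) : Prop :=
  v.valuation L (aeval x f) < max 1 (v.valuation L x) ^ f.natDegree

/-- The truncated counting function `N_S^(1)(D, x)`: the sum of `log N(v) / [L : ℚ]` over the primes
`v` of `L`, not above primes of `S`, at which the local height of `x` with respect to `D` is positive.
`D` is the sum of the closed points with the equations `f_j`, and of `∞` if `e` is positive. -/
noncomputable def counting {L : Type} [Field L] [NumberField L] {r : ℕ} (S : Finset ℕ)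
    (f : Fin r → ℤ[X]) (e : ℕ) (x : L) : ℝ :=
  (∑ᶠ v ∈ {v : HeightOneSpectrum (𝓞 L) | (∀ p ∈ S, p.Prime → ((p : ℕ) : 𝓞 L) ∉ v.asIdeal) ∧
    ((0 < e ∧ 1 < v.valuation L x) ∨ ∃ j, Near v x (f j))},
      Real.log (Ideal.absNorm v.asIdeal : ℝ)) / (Module.finrank ℚ L : ℝ)

/-- The closed points of degree `d` and height at most `log B` which lie on `D`, or for which
`N_S^(1)(D, x) < θ log B` for some finite set `S` of weight at most `η d log B`. -/
def Exceptions {r : ℕ} (d : ℕ) (f : Fin r → ℤ[X]) (e : ℕ) (η θ B : ℝ) : Set ℤ[X] :=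
  {P | Irreducible P ∧ P.natDegree = d ∧ height P ≤ Real.log B ∧
    ∃ (L : Type) (_ : Field L) (_ : NumberField L) (x : L),
      Module.finrank ℚ L = P.natDegree ∧ aeval x P = 0 ∧
        ((∃ j, aeval x (f j) = 0) ∨ ∃ S : Finset ℕ,
          ∑ p ∈ S, Real.log (p : ℝ) ≤ η * (P.natDegree * Real.log B) ∧
            counting S f e x < θ * Real.log B)}

/-- The closed points of degree `d` and height at most `log B` which lie on `D`, or for which
the inequality `(q - 2) h(x) ≤ N_S^(1)(D, x)`, `q = deg D`, fails for some finite set `S` of weight at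
most `(1 - δ) d log B`. -/
def Violators {r : ℕ} (d : ℕ) (f : Fin r → ℤ[X]) (e : ℕ) (δ B : ℝ) : Set ℤ[X] :=
  {P | Irreducible P ∧ P.natDegree = d ∧ height P ≤ Real.log B ∧
    ∃ (L : Type) (_ : Field L) (_ : NumberField L) (x : L),
      Module.finrank ℚ L = P.natDegree ∧ aeval x P = 0 ∧
        ((∃ j, aeval x (f j) = 0) ∨ ∃ S : Finset ℕ,
          ∑ p ∈ S, Real.log (p : ℝ) ≤ (1 - δ) * (P.natDegree * Real.log B) ∧
            counting S f e x < (((∑ j, (f j).natDegree + e : ℕ) : ℝ) - 2) * height P)}

/-- the weight `k`, or `2` if `k` is at least `t` -/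
def weight (t k : ℕ) : ℕ := if k < t then k else 2

theorem toDG {r : ℕ} {f : Fin r → ℤ[X]} (hf : Divisor f) : Run7.h742.DG.Divisor f :=
  ⟨hf.irreducible, hf.degree, hf.reduced⟩

theorem exceptions_eq {r : ℕ} (d : ℕ) (f : Fin r → ℤ[X]) (e : ℕ) (η θ B : ℝ) :
    Exceptions d f e η θ B = Run7.h742.DG.Exceptions d f e η θ B := rfl

theorem counting_nonneg {L : Type} [Field L] [NumberField L] {r : ℕ} (S : Finset ℕ)
    (f : Fin r → ℤ[X]) (e : ℕ) (x : L) : 0 ≤ counting S f e x :=
  Run7.h742.DG.counting_nonneg S f e x

/-- **The truncated inequality at almost all closed points of degree `d` of the line.** -/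
theorem result {r : ℕ} (f : Fin r → ℤ[X]) (hf : Divisor f) (e : ℕ) (he : e ≤ 1) :
    -- 1. all closed points of degree `d`
    (∀ d : ℕ, 1 ≤ d → ∀ η θ : ℝ, 0 ≤ η → 0 ≤ θ →
      θ + η < ∑ j, (weight (2 * d + 2) (f j).natDegree : ℝ) →
      ∃ c : ℝ, 0 < c ∧ ∃ C : ℝ, 0 < C ∧ ∀ B : ℝ, 1 ≤ B → (Exceptions d f e η θ B).Finite ∧
        ((Exceptions d f e η θ B).ncard : ℝ) ≤ C * B ^ ((d * (d + 1) : ℕ) - c)) ∧
    -- 2. the closed points of degree `d` with the denominator `a`
    (∀ d : ℕ, 2 ≤ d → ∀ η θ : ℝ, 0 ≤ η → 0 ≤ θ →
      θ + η < ∑ j, (weight (2 * d) (f j).natDegree : ℝ) →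
      ∃ c : ℝ, 0 < c ∧ ∃ C : ℝ, 0 < C ∧ ∀ B : ℝ, 1 ≤ B → ∀ a : ℤ,
        ({P | P ∈ Exceptions d f e η θ B ∧ P.leadingCoeff = a}.ncard : ℝ) ≤
          C * B ^ ((d * d : ℕ) - c)) ∧
    -- 3. the inequality of the conjecture
    (∀ d : ℕ, 1 ≤ d → (∀ j, (f j).natDegree ≤ 2 * d + 1) → ∀ δ : ℝ, 0 < δ → δ ≤ 1 →
      ∃ c : ℝ, 0 < c ∧ ∃ C : ℝ, 0 < C ∧ ∀ B : ℝ, 1 ≤ B → (Violators d f e δ B).Finite ∧
        ((Violators d f e δ B).ncard : ℝ) ≤ C * B ^ ((d * (d + 1) : ℕ) - c)) := by
  have h1 : ∀ d : ℕ, 1 ≤ d → ∀ η θ : ℝ, 0 ≤ η → 0 ≤ θ →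
      θ + η < ∑ j, (weight (2 * d + 2) (f j).natDegree : ℝ) →
      ∃ c : ℝ, 0 < c ∧ ∃ C : ℝ, 0 < C ∧ ∀ B : ℝ, 1 ≤ B → (Exceptions d f e η θ B).Finite ∧
        ((Exceptions d f e η θ B).ncard : ℝ) ≤ C * B ^ ((d * (d + 1) : ℕ) - c) := by
    intro d hd η θ hη hθ h
    have h' : θ + η < ∑ j, ((if (f j).natDegree < 2 * (d + 1) then (f j).natDegree else 2 : ℕ) : ℝ) := h
    obtain ⟨c, hc, C, hC, hB⟩ := Run7.h742.DG.all_points f (toDG hf) e d hd η θ hη hθ h'
    exact ⟨c, hc, C, hC, fun B hB1 => by rw [exceptions_eq]; exact hB B hB1⟩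
  refine ⟨h1, fun d hd η θ hη hθ h => ?_, fun d hd hk δ hδ hδ1 => ?_⟩
  · obtain ⟨c, hc, C, hC, hB⟩ := Run7.h742.DG.den_points f (toDG hf) e d hd η θ hη hθ h
    exact ⟨c, hc, C, hC, fun B hB1 a => by rw [exceptions_eq]; exact hB B hB1 a⟩
  · rcases Nat.eq_zero_or_pos r with hr | hr
    · -- there are no finite points in `D`
      subst hr
      refine ⟨1, one_pos, 1, one_pos, fun B hB => ?_⟩
      have h0 : Violators d f e δ B = ∅ := by
        rw [Set.eq_empty_iff_forall_notMem]
        rintro P ⟨hP, -, -, L, _, _, x, -, -, h2⟩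
        rcases h2 with ⟨j, -⟩ | ⟨S, -, hlt⟩
        · exact j.elim0
        · have h3 := counting_nonneg S f e x
          have h4 : 0 ≤ height P := by
            unfold height
            exact div_nonneg (Real.log_nonneg (one_le_mahlerMeasure_of_ne_zero hP.ne_zero))
              (Nat.cast_nonneg _)
          rw [Finset.univ_eq_empty, Finset.sum_empty, zero_add] at hlt
          have h5 : (e : ℝ) ≤ 1 := by exact_mod_cast he
          nlinarith
      rw [h0, Set.ncard_empty]
      refine ⟨Set.finite_empty, ?_⟩
      rw [Nat.cast_zero]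
      positivity
    · set K : ℕ := ∑ j, (f j).natDegree with hK
      have hK1 : 1 ≤ K := (hf.degree ⟨0, hr⟩).trans
        (Finset.single_le_sum (f := fun j => (f j).natDegree) (fun j _ => Nat.zero_le _)
          (Finset.mem_univ _))
      have hK1' : (1 : ℝ) ≤ K := by exact_mod_cast hK1
      have hw : ∑ j, (weight (2 * d + 2) (f j).natDegree : ℝ) = K := by
        rw [hK]
        push_cast
        refine Finset.sum_congr rfl fun j _ => ?_
        unfold weight
        rw [if_pos (by have := hk j; omega)]
      obtain ⟨c, hc, C, hC, hB⟩ := h1 d hd (1 - δ) (K - 1) (by linarith) (by linarith)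
        (by rw [hw]; linarith)
      refine ⟨c, hc, C, hC, fun B hB1 => ?_⟩
      obtain ⟨hfin, hcard⟩ := hB B hB1
      have hsub : Violators d f e δ B ⊆ Exceptions d f e (1 - δ) (K - 1) B := by
        rintro P ⟨hP, hPd, hPh, L, i1, i2, x, hL, hx, h2⟩
        refine ⟨hP, hPd, hPh, L, i1, i2, x, hL, hx, ?_⟩
        rcases h2 with h2 | ⟨S, hS, hlt⟩
        · exact Or.inl h2
        · refine Or.inr ⟨S, hS, hlt.trans_le ?_⟩
          have h4 : 0 ≤ height P := by
            unfold height
            exact div_nonneg (Real.log_nonneg (one_le_mahlerMeasure_of_ne_zero hP.ne_zero))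
              (Nat.cast_nonneg _)
          have h5 : (e : ℝ) ≤ 1 := by exact_mod_cast he
          have h6 : (((K + e : ℕ) : ℝ) - 2) ≤ K - 1 := by
            push_cast
            linarith
          calc (((K + e : ℕ) : ℝ) - 2) * height P ≤ (K - 1) * height P :=
                mul_le_mul_of_nonneg_right h6 h4
            _ ≤ (K - 1) * Real.log B := mul_le_mul_of_nonneg_left hPh (by linarith)
      refine ⟨hfin.subset hsub, le_trans ?_ hcard⟩
      exact_mod_cast Set.ncard_le_ncard hsub hfin

end Pool.Agent.Results.MP_44a246_nt.ClosedPointsOfDegreeD
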